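import Pool.Agent.W5h78.Cyl.SetA
import Pool.Agent.W5h78.Cyl.Los

/-!
# Ultraproducts of ultraroots of strongly representable cylindric algebras

For every dimension `n ≥ 3` there is an atomic representable cylindric algebra `A` of dimension `n` which is not an
ultraproduct of ultraroots of strongly representable atomic algebras. More generally there is a class `K` of
algebras which contains all strongly representable atomic cylindric algebras of dimension `n`, is closed under
ultraproducts and under ultraroots, and does not contain `A`.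
-/

set_option autoImplicit false

namespace Pool.Agent.Results.MP_8785fb_lc.ElementaryClosure

open Pool.Agent.W5h78.Cyl

/-- For every `n ≥ 3`: `UpUr SRCA_n ≠ WRCA_n`. More: some member of `WRCA_n` is not in the smallest class which
contains `SRCA_n` and is closed under ultraproducts and ultraroots. -/
theorem result (n : ℕ) (hn : 3 ≤ n) :
    Up (Ur (SRCA n)) ≠ WRCA n ∧
      ∃ A ∈ WRCA n, ∃ K : Set (Alg n), SRCA n ⊆ K ∧ Up K ⊆ K ∧ Ur K ⊆ K ∧ A ∉ K := by
  obtain ⟨m, rfl⟩ : ∃ m, n = m + 1 := ⟨n - 1, by omega⟩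
  have hm : 2 ≤ m := by omega
  obtain ⟨R, hR⟩ := ramsey (Option (Fin (m * m + 1) × Bool)) m (m + 1)
  set K : Set (Alg (m + 1)) := {A | ¬ P A (m * m + 1) (R ^ (m + 1) + 1)} with hK
  have h1 : SRCA (m + 1) ⊆ K := fun A hA hP => not_srca (by omega) hR hP hA
  have h2 : Up K ⊆ K := by
    rintro A ⟨I, U, B, hB, hU⟩ hP
    obtain ⟨i, hi⟩ := P_of_ultraproduct hU hP
    exact hB i hi
  have h3 : Ur K ⊆ K := by
    rintro A ⟨I, U, C, hC, hU⟩ hP
    exact hC (P_ultrapower hU hP)
  have h4 : exA hm ∉ K := fun h => h ⟨_, _, phi_exA hm _⟩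
  have upm : ∀ {K1 K2 : Set (Alg (m + 1))}, K1 ⊆ K2 → Up K1 ⊆ Up K2 := by
    rintro K1 K2 h A ⟨I, U, B, hB, hU⟩
    exact ⟨I, U, B, fun i => h (hB i), hU⟩
  have urm : ∀ {K1 K2 : Set (Alg (m + 1))}, K1 ⊆ K2 → Ur K1 ⊆ Ur K2 := by
    rintro K1 K2 h A ⟨I, U, C, hC, hU⟩
    exact ⟨I, U, C, h hC, hU⟩
  refine ⟨fun h => h4 ?_, exA hm, exA_mem hm, K, h1, h2, h3, h4⟩
  have h5 : exA hm ∈ Up (Ur (SRCA (m + 1))) := by
    rw [h]
    exact exA_mem hm
  exact h2 (upm ((urm h1).trans h3) h5)

end Pool.Agent.Results.MP_8785fb_lc.ElementaryClosure
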